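import Pool.Agent.H94.DS.FIN

/-!
# The exponent of SAT is strictly increasing in the density of clauses

`satExp k` is the exponent `s_k` of `k`-SAT, `densExp Δ` the exponent `d_Δ` of SAT for formulas with
at most `Δ n` clauses of any width, `densSatExp k Δ` the exponent `s_k(Δ)` of `k`-SAT for formulas
with at most `Δ n` clauses, all for Mathlib's multi-stack machines.
-/

set_option autoImplicit false

namespace Pool.Agent.H94.DSP

open Pool.Agent.H14.ETH Pool.Agent.H94.DS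

/-- For all `0 < Δ < Δ'`: the exponential time hypothesis holds if and only if `d_Δ < d_Δ'`; and,
unconditionally, `d_Δ + (d_Δ (Δ' - Δ)) ^ 6 / (2 ^ 31 (1 + Δ') ^ 9) ≤ s_k(Δ') ≤ d_Δ'` for some `k`. -/
theorem result (Δ Δ' : ℝ) (h0 : 0 < Δ) (h : Δ < Δ') :
    ((∀ k : ℕ, 3 ≤ k → 0 < satExp k) ↔ densExp Δ < densExp Δ') ∧
    ∃ k : ℕ, densExp Δ + (densExp Δ * (Δ' - Δ)) ^ 6 / (2 ^ 31 * (1 + Δ') ^ 9) ≤
      densSatExp k Δ' ∧ densSatExp k Δ' ≤ densExp Δ' :=
  main h0 h

end Pool.Agent.H94.DSP
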